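import Pool.Agent.H86.KZ.S

/-!
# KZ: the long exact sequence of a short exact sequence of Koszul complexes
-/

set_option autoImplicit false

namespace Pool.KZ

section Aux85

variable {K M M' : Type} [Field K] [AddCommGroup M] [Module K M] [AddCommGroup M'] [Module K M']

theorem kd_apply85 (x : ℕ → M →ₗ[K] M) (c : Finset ℕ → M) (T : Finset ℕ) :
    kd x c T = ∑ j ∈ T, sg j T • x j (c (T.erase j)) := rfl

/-- A map compatible with the endomorphisms is compatible with the differentials. -/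
theorem map_kd85 (x : ℕ → M →ₗ[K] M) (x' : ℕ → M' →ₗ[K] M') (φ : M →ₗ[K] M')
    (h : ∀ j m, φ (x j m) = x' j (φ m)) (c : Finset ℕ → M) (T : Finset ℕ) :
    φ (kd x c T) = kd x' (fun S => φ (c S)) T := by
  rw [kd_apply85, kd_apply85, map_sum]
  exact Finset.sum_congr rfl fun j _ => by rw [map_zsmul, h]

theorem kd_congr85 (x : ℕ → M →ₗ[K] M) {J T : Finset ℕ} (hT : T ⊆ J) {c c' : Finset ℕ → M}
    (h : ∀ S ⊆ J, c S = c' S) : kd x c T = kd x c' T := by
  rw [kd_apply85, kd_apply85]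
  exact Finset.sum_congr rfl fun j _ => by rw [h _ ((Finset.erase_subset _ _).trans hT)]

theorem kd_mem85 {x : ℕ → M →ₗ[K] M} {G : ℤ → Submodule K M} (hG : Dg x G) {s : ℤ}
    {c : Finset ℕ → M} (hc : ∀ T, c T ∈ G s) (T : Finset ℕ) : kd x c T ∈ G (s + 1) := by
  rw [kd_apply85]
  exact Submodule.sum_mem _ fun j _ => zsmul_mem (hG _ _ _ (hc _)) _

theorem kd_zero85 {x : ℕ → M →ₗ[K] M} {G : Submodule K M} {J : Finset ℕ} {p : ℤ}
    {c : Finset ℕ → M} (hc : c ∈ Cc J p G) {T : Finset ℕ} (hT : (T.card : ℤ) ≠ p + 1) :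
    kd x c T = 0 := by
  rw [kd_apply85]
  refine Finset.sum_eq_zero fun j hj => ?_
  have h : c (T.erase j) = 0 := (hc _).2 fun h => hT (by
    have h1 := Finset.card_erase_add_one hj
    have h2 := h.2
    omega)
  rw [h, map_zero, smul_zero]

/-- Lifting a cochain. -/
theorem lift85 {G : Submodule K M} {G' : Submodule K M'} {φ : M →ₗ[K] M'}
    (h : ∀ m ∈ G', ∃ n ∈ G, φ n = m) {J : Finset ℕ} {p : ℤ} {c : Finset ℕ → M'}
    (hc : c ∈ Cc J p G') : ∃ b ∈ Cc J p G, ∀ T, φ (b T) = c T := by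
  classical
  choose b hb hb' using fun T => h (c T) (hc T).1
  refine ⟨fun T => if T ⊆ J ∧ (T.card : ℤ) = p then b T else 0, fun T => ⟨?_, fun hT => ?_⟩,
    fun T => ?_⟩
  · dsimp only
    split_ifs
    · exact hb T
    · exact zero_mem _
  · exact if_neg hT
  · dsimp only
    split_ifs with hT
    · exact hb' T
    · rw [map_zero, (hc T).2 hT]

/-- Lifting a cochain known on the subsets of `J` only. -/
theorem lift'85 {G : Submodule K M} {φ : M →ₗ[K] M'}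
    {J : Finset ℕ} {p : ℤ} {c : Finset ℕ → M'}
    (hc : ∀ T ⊆ J, (T.card : ℤ) = p → ∃ n ∈ G, φ n = c T)
    (hc' : ∀ T ⊆ J, (T.card : ℤ) ≠ p → c T = 0) :
    ∃ b ∈ Cc J p G, ∀ T ⊆ J, φ (b T) = c T := by
  classical
  have h : ∀ T, ∃ n ∈ G, T ⊆ J → (T.card : ℤ) = p → φ n = c T := fun T => by
    by_cases h : T ⊆ J ∧ (T.card : ℤ) = p
    · obtain ⟨n, hn, hn'⟩ := hc T h.1 h.2
      exact ⟨n, hn, fun _ _ => hn'⟩
    · exact ⟨0, zero_mem _, fun h1 h2 => absurd ⟨h1, h2⟩ h⟩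
  choose b hb hb' using h
  refine ⟨fun T => if T ⊆ J ∧ (T.card : ℤ) = p then b T else 0, fun T => ⟨?_, fun hT => ?_⟩,
    fun T hT => ?_⟩
  · dsimp only
    split_ifs
    · exact hb T
    · exact zero_mem _
  · exact if_neg hT
  · dsimp only
    split_ifs with h
    · exact hb' T h.1 h.2
    · rw [map_zero, hc' T hT fun h2 => h ⟨hT, h2⟩]

theorem Cc_map85 {G : Submodule K M} {G' : Submodule K M'} {φ : M →ₗ[K] M'}
    (h : ∀ m ∈ G, φ m ∈ G') {J : Finset ℕ} {p : ℤ} {c : Finset ℕ → M}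
    (hc : c ∈ Cc J p G) : (fun T => φ (c T)) ∈ Cc J p G' := fun T =>
  ⟨h _ (hc T).1, fun hT => by
    dsimp only
    rw [(hc T).2 hT, map_zero]⟩

end Aux85

/-- SEI: injectivity on cohomology. -/
theorem t_SEI (hK : KDDStmt) : SEIStmt := by
  intro K E' E E₂ _ _ _ _ _ _ _ x' x x₂ G' G G₂ ι ω hS J p s hV c hc hc0 hb
  obtain ⟨b2, hb2, hb2'⟩ := hb
  obtain ⟨b0, hb0, hb0'⟩ := lift85 (φ := ω) (hS.su (s - 1)) hb2
  have hs : s - 1 + 1 = s := by ring
  have hp : p - 1 + 1 = p := by ring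
  have hbs : ∀ T, kd x b0 T ∈ G s := fun T => by
    have := kd_mem85 hS.dg (fun T => (hb0 T).1) T
    rwa [hs] at this
  have hω : ∀ T ⊆ J, ω (c T - kd x b0 T) = 0 := fun T hT => by
    rw [map_sub, map_kd85 x x₂ ω hS.xω, show (fun S => ω (b0 S)) = b2 from funext hb0',
      hb2' T hT, sub_self]
  obtain ⟨e, he, he'⟩ := lift'85 (G := G' s) (φ := ι) (J := J) (p := p)
    (c := fun T => c T - kd x b0 T)
    (fun T hT _ => hS.ex s _ (sub_mem (hc T).1 (hbs T)) (hω T hT))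
    (fun T _ hT' => by
      rw [(hc T).2 fun h => hT' h.2, kd_zero85 hb0 (by rwa [hp]), sub_zero])
  obtain ⟨v, hv, hv'⟩ := hV e he fun T hT => hS.inj <| by
    rw [map_kd85 x' x ι hS.xι, map_zero, kd_congr85 x hT he',
      show (fun T => c T - kd x b0 T) = c - kd x b0 from rfl, map_sub, Pi.sub_apply,
      hc0 T hT, hK K E x hS.cm b0, Pi.zero_apply, sub_zero]
  refine ⟨b0 + fun T => ι (v T), add_mem hb0 (Cc_map85 (hS.gι _) hv), fun T hT => ?_⟩
  rw [map_add, Pi.add_apply, ← map_kd85 x' x ι hS.xι, hv' T hT, he' T hT]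
  abel

/-- SES: surjectivity on cocycles. -/
theorem t_SES (hK : KDDStmt) : SESStmt := by
  intro K E' E E₂ _ _ _ _ _ _ _ x' x x₂ G' G G₂ ι ω hS J p s hV c hc hc0
  obtain ⟨c0, h0, h0'⟩ := lift85 (φ := ω) (hS.su s) hc
  have hω : ∀ T ⊆ J, ω (kd x c0 T) = 0 := fun T hT => by
    rw [map_kd85 x x₂ ω hS.xω, show (fun S => ω (c0 S)) = c from funext h0', hc0 T hT]
  obtain ⟨e, he, he'⟩ := lift'85 (G := G' (s + 1)) (φ := ι) (J := J) (p := p + 1)
    (c := fun T => kd x c0 T)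
    (fun T hT _ => hS.ex (s + 1) _ (kd_mem85 hS.dg (fun T => (h0 T).1) T) (hω T hT))
    (fun T _ hT' => kd_zero85 h0 hT')
  obtain ⟨v, hv, hv'⟩ := hV e he fun T hT => hS.inj <| by
    rw [map_kd85 x' x ι hS.xι, map_zero, kd_congr85 x hT he', hK K E x hS.cm c0, Pi.zero_apply]
  have hs : s + 1 - 1 = s := by ring
  have hp : p + 1 - 1 = p := by ring
  rw [hs, hp] at hv
  refine ⟨c0 - fun T => ι (v T), sub_mem h0 (Cc_map85 (hS.gι _) hv), fun T hT => ?_,
    fun T => ?_⟩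
  · rw [map_sub, Pi.sub_apply, ← map_kd85 x' x ι hS.xι, hv' T hT, he' T hT, sub_self]
  · rw [Pi.sub_apply, map_sub, h0', hS.ωι, sub_zero]

end Pool.KZ
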